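import Pool.Agent.TH806.LS.Fin

set_option autoImplicit false

/-!
# MP_07a3df_nt: both signs of Hardy's function at every level, up to constants, in short intervals

For every `B` and all `ε, δ₀ > 0` there are a measurable set `E` of reals and `c, C, W > 0`, `0 < δ ≤ δ₀` such that

* for `t ∈ E` with `2^j ≤ t < 2^(j+1)` we have `Z(t) ≠ 0` and `log |Z(t)|` differs by at most `W` from the real part
  of the sum of `p^(-1/2-it)` over the primes `p ≤ 2^(δ j)`;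

and for all `0 ≤ α < 1`, all large `T`, all `H` with `T / (log T)^α ≤ H ≤ T` and both signs `σ`

* `E` contains at least the share `1 - ε` of `[T, T + H]`;
* for `|V| ≤ B log log T` the measure of the `t ∈ E ∩ [T, T + H]` with `σ Z(t) > 0` and `|log |Z(t)| - V| ≤ W` lies
  between `c` and `C` times `H exp (-V² / log log T) / √(log log T)`;
* for real `k` with `|k| ≤ B` the integral of `|Z(t)|^(2k)` over the `t ∈ E ∩ [T, T + H]` with `σ Z(t) > 0` lies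
  between `c` and `C` times `H (log T)^(k²)` (for `k = 0`: this set has measure at least `c H`).
-/

namespace Pool.Agent.Results.MP_07a3df_nt.SignsAtEveryLevel

open Filter MeasureTheory

/-- Hardy's function: the real part of `Gammaℝ(1/2+it) / |Gammaℝ(1/2+it)| * ζ(1/2+it)`, where
`Gammaℝ(s) = π^(-s/2) Γ(s/2)`; the product is real, see `hardyZ_eq`. -/
noncomputable def hardyZ (t : ℝ) : ℝ :=
  (Complex.Gammaℝ (1 / 2 + t * Complex.I) / (‖Complex.Gammaℝ (1 / 2 + t * Complex.I)‖ : ℂ) *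
    riemannZeta (1 / 2 + t * Complex.I)).re

theorem hardyZ_eq (t : ℝ) : (hardyZ t : ℂ) = Complex.Gammaℝ (1 / 2 + t * Complex.I) /
    (‖Complex.Gammaℝ (1 / 2 + t * Complex.I)‖ : ℂ) * riemannZeta (1 / 2 + t * Complex.I) :=
  Pool.Agent.TH806.LS.a_ZR.1 t

/-- The set of the `t ∈ E ∩ [T, T + H]` with `σ Z(t) > 0`. -/
def Part (σ : ℝ) (E : Set ℝ) (T H : ℝ) : Set ℝ :=
  {t ∈ E ∩ Set.Icc T (T + H) | 0 < σ * hardyZ t}

/-- The set of the `t ∈ E ∩ [T, T + H]` with `σ Z(t) > 0` and `V - W ≤ log |Z(t)| ≤ V + W`. -/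
def Level (σ : ℝ) (E : Set ℝ) (T H V W : ℝ) : Set ℝ :=
  {t ∈ Part σ E T H | Real.exp (V - W) ≤ |hardyZ t| ∧ |hardyZ t| ≤ Real.exp (V + W)}

/-- The Gaussian weight `exp (-V² / log log T) / √(log log T)`. -/
noncomputable def gauss (T V : ℝ) : ℝ :=
  Real.exp (-(V ^ 2 / Real.log (Real.log T))) / Real.sqrt (Real.log (Real.log T))

/-- The real part of the sum of `p^(-1/2-it)` over the primes `p ≤ y`. -/
noncomputable def primeSum (y t : ℝ) : ℝ :=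
  (∑ p ∈ (Finset.Icc 1 ⌊y⌋₊).filter Nat.Prime, (p : ℂ) ^ (-(1 / 2 + t * Complex.I))).re

theorem result : ∀ B ε δ₀ : ℝ, 0 ≤ B → 0 < ε → 0 < δ₀ →
    ∃ (E : Set ℝ) (c C W δ : ℝ), MeasurableSet E ∧ 0 < c ∧ 0 < C ∧ 0 < W ∧ 0 < δ ∧ δ ≤ δ₀ ∧
    (∀ j : ℕ, ∀ t ∈ E, (2 : ℝ) ^ j ≤ t → t < (2 : ℝ) ^ (j + 1) → hardyZ t ≠ 0 ∧
      |Real.log |hardyZ t| - primeSum (2 ^ (δ * j)) t| ≤ W) ∧
    ∀ α : ℝ, 0 ≤ α → α < 1 → ∀ᶠ T : ℝ in atTop, ∀ H : ℝ, T / Real.log T ^ α ≤ H → H ≤ T →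
      (1 - ε) * H ≤ volume.real (E ∩ Set.Icc T (T + H)) ∧
      ∀ σ : ℝ, (σ = 1 ∨ σ = -1) →
        (∀ V : ℝ, |V| ≤ B * Real.log (Real.log T) →
          c * H * gauss T V ≤ volume.real (Level σ E T H V W) ∧
          volume.real (Level σ E T H V W) ≤ C * H * gauss T V) ∧
        ∀ k : ℝ, |k| ≤ B →
          IntegrableOn (fun t : ℝ => |hardyZ t| ^ (2 * k)) (Part σ E T H) ∧
          c * H * Real.log T ^ (k ^ 2) ≤ ∫ t in Part σ E T H, |hardyZ t| ^ (2 * k) ∧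
          ∫ t in Part σ E T H, |hardyZ t| ^ (2 * k) ≤ C * H * Real.log T ^ (k ^ 2) := by
  intro B ε δ₀ hB hε hδ₀
  obtain ⟨E, c, C, W, δ, mE, hc, hC, hW, hδ, hδδ, hq, h⟩ := Pool.Agent.TH806.LS.a_FINs B ε δ₀ hB hε hδ₀
  have hX : ∀ t : ℝ, |hardyZ t| = Pool.Agent.TH806.Xz t := Pool.Agent.TH806.LS.a_ZR.2.1
  refine ⟨E, c, C, W, δ, mE, hc, hC, hW, hδ, hδδ, ?_, fun α h0 h1 => ?_⟩
  · intro j t ht h1 h2
    obtain ⟨q1, q2⟩ := hq j t ht h1 h2
    have e : ((2 : ℝ) ^ j) ^ δ = 2 ^ (δ * j) := by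
      rw [← Real.rpow_natCast, ← Real.rpow_mul (by norm_num)]
      congr 1; ring
    rw [e] at q2
    rw [← hX t] at q1 q2
    exact ⟨abs_pos.mp q1, q2⟩
  filter_upwards [h α h0 h1, eventually_gt_atTop (1:ℝ)] with T hT hT1 H hH1 hH2
  obtain ⟨a1, a2, a3⟩ := hT H hH1 hH2
  have hH0 : 0 ≤ H := by
    refine le_trans ?_ hH1
    have : 0 < Real.log T := Real.log_pos hT1
    positivity
  have hpart : ∀ σ : ℝ, Part σ E T H = Set.Icc T (T + H) ∩ (E ∩ Pool.Agent.TH806.LS.Sg σ) := by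
    intro σ
    ext t
    constructor
    · rintro ⟨⟨h1, h2⟩, h3⟩
      exact ⟨h2, h1, h3⟩
    · rintro ⟨h2, h1, h3⟩
      exact ⟨⟨h1, h2⟩, h3⟩
  have hset : ∀ σ V : ℝ, Level σ E T H V W =
      Set.Icc T (T + H) ∩ (E ∩ Pool.Agent.TH806.LM.Lev V W ∩ Pool.Agent.TH806.LS.Sg σ) := by
    intro σ V
    ext t
    constructor
    · rintro ⟨⟨⟨h1, h2⟩, h3⟩, h4, h5⟩
      rw [hX t] at h4 h5
      exact ⟨h2, ⟨h1, h4, h5⟩, h3⟩
    · rintro ⟨h2, ⟨h1, h4, h5⟩, h3⟩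
      rw [← hX t] at h4 h5
      exact ⟨⟨⟨h1, h2⟩, h3⟩, h4, h5⟩
  have hfun : ∀ k : ℝ, (fun t : ℝ => |hardyZ t| ^ (2 * k)) = fun t => Pool.Agent.TH806.Xz t ^ (2 * k) := by
    intro k
    funext t
    rw [hX t]
  have hfin : volume (Set.Icc T (T + H)) ≠ ⊤ := by
    rw [Real.volume_Icc]; exact ENNReal.ofReal_ne_top
  refine ⟨?_, fun σ hσ => ⟨fun V hV => ?_, fun k hk => ?_⟩⟩
  · have e1 : volume.real (Set.Icc T (T + H)) = H := by
      rw [Real.volume_real_Icc_of_le (by linarith)]; ring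
    have e2 := measureReal_inter_add_sdiff (μ := volume) (s := Set.Icc T (T + H)) mE hfin
    rw [Set.inter_comm E]
    have e3 : Set.Icc T (T + H) \ E = Set.Icc T (T + H) ∩ Eᶜ := rfl
    rw [e3, e1] at e2
    linarith
  · obtain ⟨b1, b2⟩ := a2 V hV
    rw [hset σ V]
    have b3 : volume.real (Set.Icc T (T + H) ∩
        (E ∩ Pool.Agent.TH806.LM.Lev V W ∩ Pool.Agent.TH806.LS.Sg σ)) ≤
        volume.real (Set.Icc T (T + H) ∩ (E ∩ Pool.Agent.TH806.LM.Lev V W)) :=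
      measureReal_mono (Set.inter_subset_inter_right _ Set.inter_subset_left)
        (ne_top_of_le_ne_top hfin (measure_mono Set.inter_subset_left))
    refine ⟨le_trans (le_of_eq ?_) (b1 σ hσ), (b3.trans b2).trans (le_of_eq ?_)⟩
    · unfold gauss Pool.Agent.TH806.LM.gg; ring
    · unfold gauss Pool.Agent.TH806.LM.gg; ring
  · obtain ⟨b0, b1, b2⟩ := a3 k hk
    have hsub : Set.Icc T (T + H) ∩ (E ∩ Pool.Agent.TH806.LS.Sg σ) ⊆ Set.Icc T (T + H) ∩ E :=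
      Set.inter_subset_inter_right _ Set.inter_subset_left
    simp only [hX]
    rw [hpart σ]
    have b3 : ∫ t in Set.Icc T (T + H) ∩ (E ∩ Pool.Agent.TH806.LS.Sg σ), Pool.Agent.TH806.Xz t ^ (2 * k) ≤
        ∫ t in Set.Icc T (T + H) ∩ E, Pool.Agent.TH806.Xz t ^ (2 * k) :=
      setIntegral_mono_set b0 (Filter.Eventually.of_forall fun t =>
        Real.rpow_nonneg (by rw [← hX t]; exact abs_nonneg _) _) hsub.eventuallyLE
    refine ⟨b0.mono_set hsub, le_trans (le_of_eq ?_) (b1 σ hσ), (b3.trans b2).trans (le_of_eq ?_)⟩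
    · ring
    · ring

end Pool.Agent.Results.MP_07a3df_nt.SignsAtEveryLevel
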